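import Pool.Agent.Helper98.WF.St

/-! Project WF, module NZ: a linear form which vanishes on the `f ≡ 1 mod P`. -/

set_option autoImplicit false

open Polynomial

namespace Pool.Agent.Helper62.WF.M_NZ

open Pool.Agent.Helper98.WF

theorem stNZ (hRHO : StRHO) (hTOR : StTOR) (hGEN : StGEN) : StNZ := by
  intro p _ F E _ _ _ _ L d P T n hAlg hL hP hT hn
  have : Fact (Irreducible P) := ⟨hP.2.1⟩
  obtain ⟨hd, hmk, hdeg, -, hone, hzero, hsmall, hdiff, hne⟩ := hRHO F d P hP
  obtain ⟨-, -, -, hadd⟩ := hTOR p F P hAlg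
  obtain ⟨⟨hL0, hL1, hLneg⟩, hSm, -, -, -, hVT, -⟩ := hGEN F E L hL
  have hSmVT : ∀ a : F[X], a.natDegree < d → L a ∈ VT L d T := fun a ha =>
    (hVT d T).1 (hSm d a ha)
  -- the additive function
  have hl : ∀ g : (AdjoinRoot P)ˣ, n (L (rho P (g : AdjoinRoot P))) = 0 := by
    refine hadd (fun g => n (L (rho P (g : AdjoinRoot P)))) ?_
    intro g h
    show n (L (rho P ((g * h : (AdjoinRoot P)ˣ) : AdjoinRoot P))) =
      n (L (rho P (g : AdjoinRoot P))) + n (L (rho P (h : AdjoinRoot P)))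
    have ha0 : rho P (g : AdjoinRoot P) ≠ 0 := fun h0 => g.ne_zero ((hzero _).1 h0)
    have hb0 : rho P (h : AdjoinRoot P) ≠ 0 := fun h0 => h.ne_zero ((hzero _).1 h0)
    have hc0 : rho P ((g * h : (AdjoinRoot P)ˣ) : AdjoinRoot P) ≠ 0 :=
      fun h0 => (g * h).ne_zero ((hzero _).1 h0)
    have hda := hdeg (g : AdjoinRoot P)
    have hdb := hdeg (h : AdjoinRoot P)
    have hdc := hdeg ((g * h : (AdjoinRoot P)ˣ) : AdjoinRoot P)
    have hcl : AdjoinRoot.mk P (rho P (g : AdjoinRoot P) * rho P (h : AdjoinRoot P)) =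
        AdjoinRoot.mk P (rho P ((g * h : (AdjoinRoot P)ˣ) : AdjoinRoot P)) := by
      rw [map_mul, hmk, hmk, hmk, Units.val_mul]
    generalize rho P (g : AdjoinRoot P) = a at *
    generalize rho P (h : AdjoinRoot P) = b at *
    generalize rho P ((g * h : (AdjoinRoot P)ˣ) : AdjoinRoot P) = c at *
    have hdab : (a * b).natDegree < d + d := by
      have := Polynomial.natDegree_mul_le (p := a) (q := b)
      omega
    obtain ⟨s, hs, hsd⟩ := hdiff (a * b) c d hd hcl hdab (by omega)
    have hLab : L (a * b) = L a + L b := hL.mul a b ha0 hb0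
    by_cases hs0 : s = 0
    · rw [hs0, mul_zero, sub_eq_zero] at hs
      rw [← hs, hLab, map_add]
    · have h1 : n (L (a * b) - L c) = 0 := by
        refine hn _ (L (-s) - L c) ⟨a * b, -s, c, mul_ne_zero ha0 hb0, neg_ne_zero.2 hs0, hc0,
          ?_, rfl, rfl, ?_, ?_⟩
        · linear_combination hs
        · rw [hLab]
          exact Submodule.sub_mem _ (Submodule.add_mem _ (hSmVT a hda) (hSmVT b hdb)) (hSmVT c hdc)
        · rw [hLneg]
          exact Submodule.sub_mem _ (hSmVT s hsd) (hSmVT c hdc)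
      rw [map_sub, hLab, map_add, sub_eq_zero] at h1
      exact h1.symm
  have hsm : ∀ a : F[X], a.natDegree < d → n (L a) = 0 := by
    intro a ha
    by_cases ha0 : a = 0
    · rw [ha0, hL0, map_zero]
    · have h1 := hl (Units.mk0 _ (hne a ha0 ha))
      rw [Units.val_mk0, hsmall a ha] at h1
      exact h1
  have hprime : ∀ P' ∈ T, n (L P') = 0 := by
    intro P' hP'
    obtain ⟨hPP, hPne⟩ := hT P' hP'
    have hm0 : P' - P ≠ 0 := sub_ne_zero.2 hPne
    have hmd : (P' - P).natDegree < d := by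
      have h1 : (P' - P).degree < P'.degree := by
        refine Polynomial.degree_sub_lt_left ?_ hPP.1.ne_zero ?_
        · rw [Polynomial.degree_eq_natDegree hPP.1.ne_zero,
            Polynomial.degree_eq_natDegree hP.1.ne_zero, hPP.2.2, hP.2.2]
        · rw [hPP.1.leadingCoeff, hP.1.leadingCoeff]
      have h2 := Polynomial.natDegree_lt_natDegree hm0 h1
      rwa [hPP.2.2] at h2
    have h1 : n (L (P' - P) - L P') = 0 := by
      refine hn _ (L 1 - L P') ⟨P' - P, 1, P', hm0, one_ne_zero, hPP.1.ne_zero, ?_, rfl, rfl,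
        ?_, ?_⟩
      · ring
      · exact Submodule.sub_mem _ (hSmVT _ hmd) ((hVT d T).2 P' hP')
      · rw [hL1]
        exact Submodule.sub_mem _ (Submodule.zero_mem _) ((hVT d T).2 P' hP')
    rw [map_sub, hsm _ hmd, zero_sub, neg_eq_zero] at h1
    exact h1
  have hle : VT L d T ≤ LinearMap.ker n := by
    refine sup_le (Submodule.span_le.2 ?_) (Submodule.span_le.2 ?_)
    · rintro x ⟨a, _, ha, rfl⟩
      exact LinearMap.mem_ker.2 (hsm a ha)
    · rintro x ⟨P', hP', rfl⟩
      exact LinearMap.mem_ker.2 (hprime P' hP')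
  intro x hx
  exact LinearMap.mem_ker.1 (hle hx)

end Pool.Agent.Helper62.WF.M_NZ
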